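import Mathlib
import Pool.Agent.H.MP_75d27e_nt.Main

set_option autoImplicit false

namespace Pool.Agent.Results.MP_75d27e_nt.NotInj

open Pool.Agent.H.MP_75d27e_nt

theorem result (m : ℕ) (hm : 2 ≤ m) (hc : ¬ m.Prime) :
    ∃ n₁ n₂ s : ℕ, n₁ ≠ n₂ ∧ IsLeast (Ends m n₁) s ∧ IsLeast (Ends m n₂) s :=
  collide m hm hc

end Pool.Agent.Results.MP_75d27e_nt.NotInj
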